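import Pool.Agent.H63.FDN.Defs
import Pool.Agent.H9.FDN.Bridge
import Pool.Agent.H9.FDN.RFA

/-!
# Families of tubes with few directions in every ball, in any Euclidean space
-/

set_option autoImplicit false

open MeasureTheory
open scoped RealInnerProductSpace

namespace FDN

section

variable {E : Type} [NormedAddCommGroup E] [InnerProductSpace ℝ E] {n N : ℕ}
  (φ : E ≃ₗᵢ[ℝ] EuclideanSpace ℝ (Fin n))

theorem mem_tube_iff (δ : ℝ) (c e x : E) :
    x ∈ tube δ c e ↔ φ x ∈ Pool.Agent.H94.FDF.tube δ (φ c) (φ e) := by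
  have h1 : ⟪φ x - φ c, φ e⟫ = ⟪x - c, e⟫ := by
    rw [← map_sub, LinearIsometryEquiv.inner_map_map]
  have h2 : ‖(φ x - φ c) - ⟪φ x - φ c, φ e⟫ • φ e‖ = ‖(x - c) - ⟪x - c, e⟫ • e‖ := by
    rw [h1, ← map_sub, ← map_smul, ← map_sub, LinearIsometryEquiv.norm_map]
  show (|⟪x - c, e⟫| ≤ 1 / 2 ∧ ‖(x - c) - ⟪x - c, e⟫ • e‖ ≤ δ) ↔
    (|⟪φ x - φ c, φ e⟫| ≤ 1 / 2 ∧ ‖(φ x - φ c) - ⟪φ x - φ c, φ e⟫ • φ e‖ ≤ δ)
  rw [h2, h1]

theorem tube_eq (δ : ℝ) (c e : E) :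
    tube δ c e = φ ⁻¹' Pool.Agent.H94.FDF.tube δ (φ c) (φ e) := by
  ext x
  exact mem_tube_iff φ δ c e x

theorem mult_eq (δ : ℝ) (c e : Fin N → E) (x : E) :
    mult δ c e x = Pool.Agent.H94.FDF.mult δ (fun i => φ (c i)) (fun i => φ (e i)) (φ x) := by
  unfold mult Pool.Agent.H94.FDF.mult
  refine Finset.sum_congr rfl fun i _ => ?_
  by_cases hx : x ∈ tube δ (c i) (e i)
  · rw [Set.indicator_of_mem hx, Set.indicator_of_mem ((mem_tube_iff φ δ (c i) (e i) x).1 hx)]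
  · rw [Set.indicator_of_notMem hx,
      Set.indicator_of_notMem (fun h' => hx ((mem_tube_iff φ δ (c i) (e i) x).2 h'))]

theorem dirs_image (δ : ℝ) (e : Fin N → E) (h : Dirs δ e) :
    Pool.Agent.H94.FDF.Dirs δ (fun i => φ (e i)) := by
  refine ⟨fun i => ?_, fun i j hij => ?_⟩
  · show ‖φ (e i)‖ = 1
    rw [LinearIsometryEquiv.norm_map]
    exact h.1 i
  · show δ ≤ ‖φ (e i) - φ (e j)‖
    rw [← map_sub, LinearIsometryEquiv.norm_map]
    exact h.2 i j hij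

theorem spread_image (δ M : ℝ) (e : Fin N → E) (h : Spread δ M e) :
    Pool.Agent.H94.FDF.Spread δ M (fun i => φ (e i)) := by
  intro i r hr
  have h3 := h i r hr
  have h4 : ({j | Pool.Agent.H94.FDF.nm (Pool.Agent.H94.FDF.diff (φ (e j)) (φ (e i))) ≤ r} :
      Set (Fin N)) = {j | ‖e j - e i‖ ≤ r} := by
    ext j
    show ‖φ (e j) - φ (e i)‖ ≤ r ↔ ‖e j - e i‖ ≤ r
    rw [← map_sub, LinearIsometryEquiv.norm_map]
  rw [h4]
  exact h3

theorem hasSegment_image (K : Set E) (e : E) (h : HasSegment K e) :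
    Pool.Agent.H94.FDF.HasSegment (φ '' K) (φ e) := by
  obtain ⟨x, hx⟩ := h
  refine ⟨φ x, fun t h0 h1 => ⟨x + t • e, hx t h0 h1, ?_⟩⟩
  rw [map_add, map_smul]

theorem isKakeya_image (K : Set E) (h : IsKakeya K) :
    Pool.Agent.H94.FDF.IsKakeya (φ '' K) := by
  intro e he
  have he' : ‖φ.symm e‖ = 1 := by
    rw [LinearIsometryEquiv.norm_map]
    exact he
  have h1 := hasSegment_image φ K (φ.symm e) (h (φ.symm e) he')
  rwa [LinearIsometryEquiv.apply_symm_apply] at h1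

theorem hdim_image (K : Set E) : Pool.Agent.H94.FDF.hdim (φ '' K) = dimH K :=
  φ.isometry.dimH_image K

variable [FiniteDimensional ℝ E] [MeasurableSpace E] [BorelSpace E]

theorem vol_preimage (hφ : MeasurePreserving φ volume volume)
    (s : Set (EuclideanSpace ℝ (Fin n))) : vol (φ ⁻¹' s) = Pool.Agent.H94.FDF.vol s :=
  hφ.measure_preimage_emb φ.toHomeomorph.measurableEmbedding s

theorem off_preimage (hφ : MeasurePreserving φ volume volume) (d : ℕ) (θ s q₀ C δ : ℝ)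
    (c e : Fin N → E)
    (h : Pool.Agent.H94.FDF.Off d θ s q₀ C δ (fun i => φ (c i)) (fun i => φ (e i))) :
    Off d θ s q₀ C δ c e := by
  obtain ⟨G, hG, h1, h2, h3⟩ := h
  refine ⟨φ ⁻¹' G, φ.continuous.measurable hG, ?_, ?_, ?_⟩
  · have h4 : ∀ i, vol (tube δ (c i) (e i) \ φ ⁻¹' G) =
        Pool.Agent.H94.FDF.vol (Pool.Agent.H94.FDF.tube δ (φ (c i)) (φ (e i)) \ G) := by
      intro i
      rw [tube_eq φ, ← Set.preimage_sdiff]
      exact vol_preimage φ hφ _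
    have h5 : ∀ i, vol (tube δ (c i) (e i)) =
        Pool.Agent.H94.FDF.vol (Pool.Agent.H94.FDF.tube δ (φ (c i)) (φ (e i))) := by
      intro i
      rw [tube_eq φ]
      exact vol_preimage φ hφ _
    simp only [h4, h5]
    exact h1
  · intro x hx
    rw [mult_eq φ]
    exact h2 (φ x) hx
  · intro q hq
    refine le_trans (le_of_eq ?_) (h3 q hq)
    have h6 : (φ ⁻¹' G).indicator (mult δ c e) =
        (G.indicator (Pool.Agent.H94.FDF.mult δ (fun i => φ (c i)) (fun i => φ (e i)))) ∘ φ := by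
      funext x
      by_cases hx : φ x ∈ G
      · rw [Function.comp_apply, Set.indicator_of_mem (show x ∈ φ ⁻¹' G from hx),
          Set.indicator_of_mem hx, mult_eq φ]
      · rw [Function.comp_apply, Set.indicator_of_notMem (show x ∉ φ ⁻¹' G from hx),
          Set.indicator_of_notMem hx]
    have h7 : MeasurableEmbedding φ := φ.toHomeomorph.measurableEmbedding
    rw [h6, ← h7.eLpNorm_map_measure, hφ.map_eq]
    rfl

theorem union_preimage (hφ : MeasurePreserving φ volume volume) (d : ℕ) (s C δ : ℝ)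
    (c e : Fin N → E)
    (h : Pool.Agent.H94.FDF.Union d s C δ (fun i => φ (c i)) (fun i => φ (e i))) :
    Union d s C δ c e := by
  have h1 : vol (⋃ i, tube δ (c i) (e i)) =
      Pool.Agent.H94.FDF.vol (⋃ i, Pool.Agent.H94.FDF.tube δ (φ (c i)) (φ (e i))) := by
    rw [← vol_preimage φ hφ, Set.preimage_iUnion]
    simp only [tube_eq φ]
  unfold Union
  rw [h1]
  exact h

theorem dense_preimage (hφ : MeasurePreserving φ volume volume) (d : ℕ) (P s C δ : ℝ)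
    (c e : Fin N → E)
    (h : Pool.Agent.H94.FDF.Dense d P s C δ (fun i => φ (c i)) (fun i => φ (e i))) :
    Dense d P s C δ c e := by
  intro lam hl0 hl1 X hX hXi
  have hXm : Pool.Agent.H94.FDF.Meas (φ.symm ⁻¹' X) := φ.symm.continuous.measurable hX
  have hpre : φ ⁻¹' (φ.symm ⁻¹' X) = X := by
    ext x
    simp
  have h1 := h lam hl0 hl1 (φ.symm ⁻¹' X) hXm ?_
  · rw [← vol_preimage φ hφ, hpre] at h1
    exact h1
  · intro i
    have h2 := hXi i
    have h3 : vol (tube δ (c i) (e i)) =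
        Pool.Agent.H94.FDF.vol (Pool.Agent.H94.FDF.tube δ (φ (c i)) (φ (e i))) := by
      rw [tube_eq φ]
      exact vol_preimage φ hφ _
    have h4 : vol (X ∩ tube δ (c i) (e i)) = Pool.Agent.H94.FDF.vol
        (φ.symm ⁻¹' X ∩ Pool.Agent.H94.FDF.tube δ (φ (c i)) (φ (e i))) := by
      rw [← vol_preimage φ hφ, Set.preimage_inter, hpre, ← tube_eq φ]
    rw [h3, h4] at h2
    exact h2

end

theorem fewDirections (E : Type) [NormedAddCommGroup E] [InnerProductSpace ℝ E]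
    [FiniteDimensional ℝ E] [MeasurableSpace E] [BorelSpace E] (d : ℕ)
    (hE : Module.finrank ℝ E = d + 1) (hd : 3 ≤ d) :
    (∀ A σ ε q₀ : ℝ, 0 ≤ σ → σ ≤ 1 - 3 / (d : ℝ) → 0 < ε → ε < 1 - σ →
      1 + 1 / ((d : ℝ) * (1 - σ)) < q₀ →
      ∃ θ P C : ℝ, 0 < θ ∧ 0 ≤ P ∧ 0 < C ∧ ∀ δ : ℝ, 0 < δ → δ < 1 →
        ∀ (N : ℕ) (c e : Fin N → E), Dirs δ e →
        (σ = 1 - 3 / (d : ℝ) ∨ Spread δ (A * (N : ℝ) ^ σ) e) →
        Off d θ (σ + ε) q₀ C δ c e ∧ Union d (1 - σ - ε) C δ c e ∧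
        Dense d P (1 - σ - ε) C δ c e) ∧
    (∀ Ω K : Set E, Ω.Nonempty → (∀ e ∈ Ω, ‖e‖ = 1 ∧ HasSegment K e) →
      min (dimH Ω) 3 + 1 ≤ dimH K) ∧
    (∀ K : Set E, IsKakeya K →
      4 ≤ dimH K ∧ (d = 3 → dimH K = 4) ∧ (d = 5 → ENNReal.ofReal (32 / 7) ≤ dimH K) ∧
        (d = 6 → 5 ≤ dimH K) ∧ (d = 7 → ENNReal.ofReal (60 / 11) ≤ dimH K)) ∧
    (d = 4 → ∃ c : ℝ, 0 < c ∧ ∀ K : Set E, IsKakeya K → ENNReal.ofReal (4 + c) ≤ dimH K) := by
  set b : OrthonormalBasis (Fin (d + 1)) ℝ E :=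
    (stdOrthonormalBasis ℝ E).reindex (finCongr hE) with hb
  set φ : E ≃ₗᵢ[ℝ] EuclideanSpace ℝ (Fin (d + 1)) := b.repr with hφd
  have hφ : MeasurePreserving φ volume volume := b.measurePreserving_repr
  obtain ⟨h1, h2, h3, h4⟩ := Pool.Agent.H9.FDN.main Pool.RF.dim_all d hd
  refine ⟨?_, ?_, ?_, ?_⟩
  · intro A σ ε q₀ hσ0 hσ1 hε0 hε1 hq
    obtain ⟨θ, P, C, hθ, hP, hC, h⟩ := h1 A σ ε q₀ hσ0 hσ1 hε0 hε1 hq
    refine ⟨θ, P, C, hθ, hP, hC, ?_⟩
    intro δ hδ0 hδ1 N c e he hs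
    obtain ⟨k1, k2, k3⟩ := h δ hδ0 hδ1 N (fun i => φ (c i)) (fun i => φ (e i))
      (dirs_image φ δ e he) (hs.imp id (spread_image φ δ _ e))
    exact ⟨off_preimage φ hφ d θ (σ + ε) q₀ C δ c e k1,
      union_preimage φ hφ d (1 - σ - ε) C δ c e k2,
      dense_preimage φ hφ d P (1 - σ - ε) C δ c e k3⟩
  · intro Ω K hΩ hK
    have h := h2 (φ '' Ω) (φ '' K) (hΩ.image φ) (by
      rintro _ ⟨e, he, rfl⟩
      refine ⟨?_, hasSegment_image φ K e (hK e he).2⟩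
      show ‖φ e‖ = 1
      rw [LinearIsometryEquiv.norm_map]
      exact (hK e he).1)
    rw [hdim_image, hdim_image] at h
    exact h
  · intro K hK
    have h := h3 (φ '' K) (isKakeya_image φ K hK)
    rw [hdim_image] at h
    exact h
  · intro hd4
    obtain ⟨c, hc, h⟩ := h4 hd4
    refine ⟨c, hc, fun K hK => ?_⟩
    have h5 := h (φ '' K) (isKakeya_image φ K hK)
    rw [hdim_image] at h5
    exact h5

end FDN
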