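import Mathlib

/-!
# Tubes and Kakeya sets in a Euclidean space
-/

set_option autoImplicit false

open MeasureTheory
open scoped RealInnerProductSpace

namespace FDN

variable {E : Type} [NormedAddCommGroup E] [InnerProductSpace ℝ E]

/-- The tube of length `1`, radius `δ`, centre `c` and axis direction `e`. -/
def tube (δ : ℝ) (c e : E) : Set E :=
  {x | |⟪x - c, e⟫| ≤ 1 / 2 ∧ ‖(x - c) - ⟪x - c, e⟫ • e‖ ≤ δ}

/-- The number of tubes which contain the point `x`. -/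
noncomputable def mult {N : ℕ} (δ : ℝ) (c e : Fin N → E) (x : E) : ℝ :=
  ∑ i, (tube δ (c i) (e i)).indicator (fun _ => (1 : ℝ)) x

/-- The directions are unit vectors and `δ`-separated. -/
def Dirs {N : ℕ} (δ : ℝ) (e : Fin N → E) : Prop :=
  (∀ i, ‖e i‖ = 1) ∧ ∀ i j, i ≠ j → δ ≤ ‖e i - e j‖

/-- At most `M (r / δ) ^ 3` directions of the family are at distance at most `r` from one of them,
for all `r ≥ δ`. -/
def Spread {N : ℕ} (δ M : ℝ) (e : Fin N → E) : Prop :=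
  ∀ i, ∀ r : ℝ, δ ≤ r → ({j | ‖e j - e i‖ ≤ r}.ncard : ℝ) ≤ M * (r / δ) ^ 3

/-- `K` contains a unit segment in the direction `e`. -/
def HasSegment (K : Set E) (e : E) : Prop := ∃ x : E, ∀ t : ℝ, 0 ≤ t → t ≤ 1 → x + t • e ∈ K

/-- `K` contains a unit segment in every direction. -/
def IsKakeya (K : Set E) : Prop := ∀ e : E, ‖e‖ = 1 → HasSegment K e

variable [FiniteDimensional ℝ E] [MeasurableSpace E] [BorelSpace E]

/-- The Lebesgue measure of a set. -/
noncomputable def vol (s : Set E) : ENNReal := volume s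

/-- Off a part `N ^ (-θ)` of the mass at most `C N ^ s` tubes meet at a point, and the inequality
of Q1 holds for all real `q ≥ q₀`. -/
def Off {N : ℕ} (d : ℕ) (θ s q₀ C δ : ℝ) (c e : Fin N → E) : Prop :=
  ∃ G : Set E, MeasurableSet G ∧
    ∑ i, vol (tube δ (c i) (e i) \ G) ≤
      ENNReal.ofReal ((N : ℝ) ^ (-θ)) * ∑ i, vol (tube δ (c i) (e i)) ∧
    (∀ x ∈ G, mult δ c e x ≤ C * (N : ℝ) ^ s) ∧
    ∀ q : ℝ, q₀ ≤ q → eLpNorm (G.indicator (mult δ c e)) (ENNReal.ofReal q) volume ≤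
      ENNReal.ofReal (C * (δ ^ ((d : ℝ) / q) * (N : ℝ) ^ (1 - 1 / (q * d))))

/-- The tubes cover volume at least `C⁻¹ N ^ s δ ^ d`. -/
def Union {N : ℕ} (d : ℕ) (s C δ : ℝ) (c e : Fin N → E) : Prop :=
  ENNReal.ofReal (C⁻¹ * ((N : ℝ) ^ s * δ ^ d)) ≤ vol (⋃ i, tube δ (c i) (e i))

/-- A measurable set which contains at least the part `lam` of each tube has volume at least
`C⁻¹ lam ^ P N ^ s δ ^ d`. -/
def Dense {N : ℕ} (d : ℕ) (P s C δ : ℝ) (c e : Fin N → E) : Prop :=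
  ∀ lam : ℝ, 0 < lam → lam ≤ 1 → ∀ X : Set E, MeasurableSet X →
    (∀ i, ENNReal.ofReal lam * vol (tube δ (c i) (e i)) ≤ vol (X ∩ tube δ (c i) (e i))) →
    ENNReal.ofReal (C⁻¹ * lam ^ P * ((N : ℝ) ^ s * δ ^ d)) ≤ vol X

end FDN
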